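import Pool.Agent.helper5.SYM.SpecB
import Pool.Agent.helper89.CT.JZ5

/-!
# Project sy (MP_45d809_mp): row N31
-/

set_option autoImplicit false

namespace Pool.Agent.SYM
open Finset CT Polynomial

/-- The coefficient of a sum of powers of `X` counts the exponents. -/
theorem N31_coeff {ι : Type*} (s : Finset ι) (f : ι → ℕ) (n : ℕ) :
    (∑ t ∈ s, (X : ℤ[X]) ^ f t).coeff n = ((s.filter fun t => f t = n).card : ℤ) := by
  rw [Polynomial.finsetSum_coeff, Finset.card_filter]
  push_cast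
  refine Finset.sum_congr rfl fun t _ => ?_
  rw [Polynomial.coeff_X_pow]
  by_cases h : n = f t
  · rw [if_pos h, if_pos h.symm]
  · rw [if_neg h, if_neg (Ne.symm h)]

theorem N31 (hZPF : ZPF_stmt) : N31_stmt := by
  intro V _ _ v L e hL hv hA
  have hL' : (L ++ [v]).Nodup := by
    rw [List.nodup_append]
    refine ⟨hL, List.nodup_singleton v, ?_⟩
    intro a ha b hb hab
    rw [List.mem_singleton] at hb
    subst hb
    subst hab
    exact hv ha
  have hp : (∑ t ∈ pf (L ++ [v]).toFinset, (X : ℤ[X]) ^ lps (L ++ [v]) e t) =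
      (X ^ 2 + 2 * X) * ∑ t ∈ pf L.toFinset, (X : ℤ[X]) ^ lps L e t := by
    apply Polynomial.funext
    intro x
    have h1 := hZPF V x (L ++ [v]) e hL'
    have h2 := hZPF V x L e hL
    have h3 := CT.JZ5 V x v L e hL hv hA
    rw [h1, h2] at h3
    simp only [Polynomial.eval_finsetSum, Polynomial.eval_mul, Polynomial.eval_add,
      Polynomial.eval_pow, Polynomial.eval_X, Polynomial.eval_ofNat]
    exact h3
  have hc := congrArg (fun p : ℤ[X] => p.coeff 3) hp
  beta_reduce at hc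
  rw [N31_coeff] at hc
  have hr : ((X ^ 2 + 2 * X) * ∑ t ∈ pf L.toFinset, (X : ℤ[X]) ^ lps L e t).coeff 3 =
      (∑ t ∈ pf L.toFinset, (X : ℤ[X]) ^ lps L e t).coeff 1 +
        2 * (∑ t ∈ pf L.toFinset, (X : ℤ[X]) ^ lps L e t).coeff 2 := by
    generalize (∑ t ∈ pf L.toFinset, (X : ℤ[X]) ^ lps L e t) = q
    rw [add_mul, Polynomial.coeff_add]
    have a1 : ((X : ℤ[X]) ^ 2 * q).coeff 3 = q.coeff 1 := by
      have := Polynomial.coeff_X_pow_mul q 2 1
      exact this
    have a2 : ((2 * X : ℤ[X]) * q).coeff 3 = 2 * q.coeff 2 := by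
      have e2 : (2 * X : ℤ[X]) * q = C 2 * (X * q) := by
        rw [show (C 2 : ℤ[X]) = 2 from rfl]
        ring
      rw [e2, Polynomial.coeff_C_mul]
      rw [Polynomial.coeff_X_mul q 2]
    rw [a1, a2]
  rw [hr, N31_coeff, N31_coeff] at hc
  exact_mod_cast hc

end Pool.Agent.SYM
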