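import Pool.Agent.helper5.SYM.SpecA

/-! # Row `SPL` of project sy: splitting the circuits by an invariant property -/

set_option autoImplicit false

namespace Pool.Agent.SYM
open Finset CT Polynomial

theorem SPL_eq (D : Type) [Finite D] (s τ : D → D) (Q Q0 : D → Prop)
    (h1 : ∀ d, Q0 (s d) ↔ Q0 d) (h2 : ∀ d, Q0 (τ d) ↔ Q0 d) :
    nav s τ Q = nav s τ (fun d => Q d ∨ Q0 d) + nav s τ (fun d => Q d ∨ ¬ Q0 d) := by
  have hfin : Finite (Cir s τ) := by
    unfold Cir
    infer_instance
  let P : Cir s τ → Prop := Quot.lift Q0 (by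
    intro a b hab
    apply propext
    rcases hab with rfl | rfl
    · exact (h1 a).symm
    · exact (h2 a).symm)
  have hP : ∀ d, P (cir s τ d) = Q0 d := fun d => rfl
  have hsurj : ∀ c : Cir s τ, ∃ d, cir s τ d = c := fun c => Quot.exists_rep c
  unfold nav
  have e1 : ∀ A : Cir s τ → Prop, Nat.card {c // A c} = Set.ncard {c | A c} := by
    intro A
    exact Nat.card_coe_set_eq {c | A c}
  rw [e1, e1, e1, ← Set.ncard_union_eq]
  · congr 1
    ext c
    simp only [Set.mem_union, Set.mem_ofPred_eq]
    constructor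
    · intro h
      by_cases hc : P c
      · right
        rintro d (hd | hd) rfl
        · exact h d hd rfl
        · exact hd hc
      · left
        rintro d (hd | hd) rfl
        · exact h d hd rfl
        · exact hc hd
    · rintro (h | h) d hd
      · exact h d (Or.inl hd)
      · exact h d (Or.inl hd)
  · rw [Set.disjoint_left]
    intro c ha hb
    obtain ⟨d, rfl⟩ := hsurj c
    rw [Set.mem_ofPred_eq] at ha hb
    by_cases hd : Q0 d
    · exact ha d (Or.inr hd) rfl
    · exact hb d (Or.inr hd) rfl

theorem SPL : SPL_stmt := by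
  intro D _ s τ Q Q0 h1 h2
  exact SPL_eq D s τ Q Q0 h1 h2

end Pool.Agent.SYM
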